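import Mathlib
import Pool.Agent.Lib.helper12.Grig

namespace Pool.Agent.Results.MP_a9f5dc_al.Genus

open Pool.Agent.Lib.helper12.Grig FreeGroup
open scoped commutatorElement

theorem result : ∃ φ : PresentedGroup
      ({⁅of (0 : Fin 4), of (1 : Fin 4)⁆ * ⁅of (2 : Fin 4), of (3 : Fin 4)⁆} :
        Set (FreeGroup (Fin 4))) →* Grig,
    Function.Surjective φ := by
  let g : Gen → Grig := fun s => ⟨gen s, Subgroup.subset_closure ⟨s, rfl⟩⟩
  have hbc : g .b * g .c = g .d := Subtype.ext (Equiv.ext (fun w => (klein w).1.1))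
  have hcb : g .c * g .b = g .d := Subtype.ext (Equiv.ext (fun w => (klein w).1.2))
  let f : Fin 4 → Grig := ![g .a, 1, g .b, g .c]
  have hf : ∀ r ∈ ({⁅of (0 : Fin 4), of (1 : Fin 4)⁆ * ⁅of (2 : Fin 4), of (3 : Fin 4)⁆} :
      Set (FreeGroup (Fin 4))), lift f r = 1 := by
    rintro r rfl
    have : ⁅g .b, g .c⁆ = 1 := commutatorElement_eq_one_iff_mul_comm.2 (hbc.trans hcb.symm)
    simp [map_commutatorElement, f, this]
  refine ⟨PresentedGroup.toGroup hf, ?_⟩
  have h : ∀ s, g s ∈ (PresentedGroup.toGroup hf).range := by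
    have ha : g .a ∈ (PresentedGroup.toGroup hf).range := ⟨.of 0, PresentedGroup.toGroup.of hf⟩
    have hb : g .b ∈ (PresentedGroup.toGroup hf).range := ⟨.of 2, PresentedGroup.toGroup.of hf⟩
    have hc : g .c ∈ (PresentedGroup.toGroup hf).range := ⟨.of 3, PresentedGroup.toGroup.of hf⟩
    rintro (_ | _ | _ | _)
    exacts [ha, hb, hc, hbc ▸ mul_mem hb hc]
  rintro ⟨x, hx⟩
  change _ ∈ (PresentedGroup.toGroup hf).range
  induction hx using Subgroup.closure_induction with
  | mem x hx => obtain ⟨s, rfl⟩ := hx; exact h s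
  | one => exact one_mem _
  | mul x y _ _ hx hy => exact mul_mem hx hy
  | inv x _ hx => exact inv_mem hx

end Pool.Agent.Results.MP_a9f5dc_al.Genus
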